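import Pool.Agent.Lib.MP_bc5a73_al.FinalLog
import Pool.Agent.Lib.MP_bc5a73_al.Statement

/-!
# A logarithmic number of random elements of the alternating group expands

`probExpd G m ε` is the probability `P_G(m, ε)` of the problem: the proportion of the `m`-tuples `x` of elements of `G` for
which the Cayley graph of `G` with respect to `x₁^{±1}, …, x_m^{±1}` is `ε`-expanding (vertex expansion).

`C log n` random elements of `Alt(n)` are `1/8`-expanding with probability at least `1 - 1/n`.
-/

namespace Pool.Agent.Results.MP_bc5a73_al.AlternatingLog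

open Pool.Agent.BC5

theorem result :
    ∃ C : ℝ, ∃ N : ℕ, ∀ n : ℕ, N ≤ n → ∀ m : ℕ, C * Real.log n ≤ m →
      1 - 1 / (n : ℝ) ≤ probExpd (alternatingGroup (Fin n)) m (1 / 8) := by
  obtain ⟨C, -, N, h⟩ := alt_log
  exact ⟨C, N, fun n hn m hm => le_probExpd (h n hn m hm)⟩

end Pool.Agent.Results.MP_bc5a73_al.AlternatingLog
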