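import Pool.Agent.Lib.MP_bc5a73_al.Lift.Final

/-!
# A bounded number of random elements of the alternating group and all subgroups of index at most `exp (n ^ c)`, `c < 1`

`SatExpd G m X ε` is the set of the `m`-tuples `x` such that for every subgroup `H` of `G` of index at most `X` and every set
`A` with `2 |H A| ≤ |G|` the neighbourhood of `A` in the Cayley graph of `G` with respect to `x_i^{±1}` has at least `ε |A|`
elements outside `A`. In particular (`A = H A`) all the Schreier graphs `H \ G` of degree at most `X` are `ε`-expanding.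

For every `m ≥ 3` and every `c < 1 - 2 ^ (2 - m)` there is `ε > 0` such that `m` random elements of `Alt(n)` have this
property with `X = exp (n ^ c)` with probability at least `1 - n ^ (-1/4)`, for all large `n`.
-/

namespace Pool.Agent.Results.MP_bc5a73_al.BoundedAllExponents

open Pool.Agent.BC5

theorem result (m : ℕ) (c : ℝ) (hm : 3 ≤ m) (hc : c < 1 - (1 / 2) ^ (m - 2)) :
    ∃ ε : ℝ, 0 < ε ∧ ∃ n0 : ℕ, ∀ n : ℕ, n0 ≤ n →
      1 - (n : ℝ) ^ (-(1 / 4) : ℝ) ≤
        (Nat.card (SatExpd (alternatingGroup (Fin n)) m (Real.exp ((n : ℝ) ^ c)) ε) : ℝ) /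
          (Nat.card (alternatingGroup (Fin n)) : ℝ) ^ m := by
  have hG : ∀ n m : ℕ, (0 : ℝ) < (Nat.card (alternatingGroup (Fin n)) : ℝ) ^ m := by
    intro n m
    have h1 : 0 < Nat.card (alternatingGroup (Fin n)) := Nat.card_pos
    have h2 : (0 : ℝ) < (Nat.card (alternatingGroup (Fin n)) : ℝ) := by exact_mod_cast h1
    positivity
  obtain ⟨ε, hε, n0, h⟩ := lift_main m hm c hc
  refine ⟨ε, hε, n0, fun n hn => ?_⟩
  rw [le_div_iff₀ (hG n m)]
  exact h n hn

end Pool.Agent.Results.MP_bc5a73_al.BoundedAllExponents
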