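import Pool.Agent.Lib.MP_bc5a73_al.QuasiMain

/-!
# Random elements of an arbitrary finite group, in terms of its class number and its least degree

Let `G` be a finite group with `|G| ≥ 3` and `k` conjugacy classes, and let `d ≥ 1` be such that every nonzero space of real
functions on `G` of sum `0` which is invariant under left translations has dimension at least `d` (that is, every nontrivial
irreducible real representation of `G` has degree at least `d`). Then `C (log log |G| + log k · log log (d + 2) / log (d + 2))`
random elements of `G` are `1/8`-expanding with probability at least `1 - 1/(k d)`; `C` is an absolute constant.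
-/

namespace Pool.Agent.Results.MP_bc5a73_al.EveryGroupQuasirandom

open Pool.Agent.BC5

theorem result : ∃ C : ℝ, ∀ (G : Type) [Group G] [Finite G] (d m : ℕ), 3 ≤ Nat.card G → 1 ≤ d →
    (∀ W : Submodule ℝ (G → ℝ), W ≠ ⊥ → (∀ f ∈ W, ∑ᶠ x, f x = 0) →
      (∀ f ∈ W, ∀ g : G, (fun x => f (g * x)) ∈ W) → d ≤ Module.finrank ℝ W) →
    C * (Real.log (Real.log (Nat.card G)) + Real.log (Nat.card (ConjClasses G)) *
      (Real.log (Real.log ((d : ℝ) + 2)) / Real.log ((d : ℝ) + 2))) ≤ m →
    1 - 1 / ((Nat.card (ConjClasses G) : ℝ) * d) ≤ probExpd G m (1 / 8) :=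
  quasi_general

end Pool.Agent.Results.MP_bc5a73_al.EveryGroupQuasirandom
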