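import Pool.Agent.Lib.MP_bc5a73_al.SatSl

/-!
# Random elements of `SL_n(q)` and `PSL_n(q)`: a number independent of `q`

`SatExpd G m X ε` is the set of the `m`-tuples `x` such that for every subgroup `H` of `G` of index at most `X` and every set
`A` with `2 |H A| ≤ |G|` the neighbourhood of `A` in the Cayley graph of `G` with respect to `x_i^{±1}` has at least `ε |A|`
elements outside `A`. (`A = H A`: all the Schreier graphs `H \ G` of degree at most `X` are `ε`-expanding. `X = |G|`, `H = 1`:
all sets `A` with `2 |A| ≤ |G|`.)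

`C (1 + log (1 + log X / (n + log q)))` random elements of `SL_n(q)`, or of any quotient `G` of `SL_n(q)`, have this property with
`ε = 1/8` with probability at least `1 - (q e^n)^(-κ)`; `C` and `κ > 0` are absolute constants. For `X = |G|` the number of random
elements is at most `C' log n`.
-/

namespace Pool.Agent.Results.MP_bc5a73_al.SpecialLinearGraded

open Pool.Agent.BC5

theorem result : ∃ C : ℝ, ∃ κ : ℝ, 0 < κ ∧ ∀ n : ℕ, 2 ≤ n → ∀ (F : Type) [Field F] [Finite F]
    (N : Subgroup (Matrix.SpecialLinearGroup (Fin n) F)) [N.Normal] (X : ℝ) (m : ℕ), 1 ≤ X →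
    C * (1 + Real.log (1 + Real.log X / ((n : ℝ) + Real.log (Nat.card F)))) ≤ m →
      1 - ((Nat.card F : ℝ) * Real.exp n) ^ (-κ) ≤
        (Nat.card (SatExpd (Matrix.SpecialLinearGroup (Fin n) F ⧸ N) m X (1 / 8)) : ℝ) /
          (Nat.card (Matrix.SpecialLinearGroup (Fin n) F ⧸ N) : ℝ) ^ m := by
  obtain ⟨C, κ, hκ, h⟩ := SL_graded
  exact ⟨C, κ, hκ, fun n hn F _ _ N _ X m hX hm => h n hn F N X m hX hm⟩

end Pool.Agent.Results.MP_bc5a73_al.SpecialLinearGraded
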